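import Pool.Agent.H441Z.FL.Main

set_option autoImplicit false
set_option maxHeartbeats 400000
set_option linter.unusedSectionVars false

open Finset Filter Topology MeasureTheory

namespace H441Z.FB

open H441Z.FL

variable {E : Type*} [NormedAddCommGroup E] [NormedSpace ℝ E] {J : Type} [Fintype J]
  [DecidableEq J]

noncomputable def tt (m : ℕ) : ℝ := 1 / ((m : ℝ) + 1) ^ 2

theorem tt_pos (m : ℕ) : 0 < tt m := by unfold tt; positivity

theorem tt_le (m : ℕ) : tt m ≤ 1 / ((m : ℝ) + 1) := by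
  unfold tt
  have : (0:ℝ) ≤ m := Nat.cast_nonneg m
  rw [div_le_div_iff₀ (by positivity) (by positivity)]
  nlinarith

theorem tendsto_inv_succ (B : ℝ) : Tendsto (fun m : ℕ => B / ((m : ℝ) + 1)) atTop (𝓝 0) :=
  tendsto_const_div_atTop_nhds_zero_nat B |>.comp (tendsto_add_atTop_nat 1)
    |>.congr (fun n => by simp)

theorem tt_tendsto : Tendsto tt atTop (𝓝[>] 0) := by
  refine tendsto_nhdsWithin_iff.2 ⟨?_, Eventually.of_forall tt_pos⟩
  exact squeeze_zero (fun m => (tt_pos m).le) tt_le (tendsto_inv_succ 1)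

noncomputable def pos (e : J → E) (m : ℕ) (c : J → Fin (m + 1)) : E :=
  ∑ j, (((c j : ℕ) : ℝ) * tt m) • e j

theorem norm_pos_le {e : J → E} (he : ∀ j, ‖e j‖ ≤ 1) (m : ℕ) (c : J → Fin (m + 1)) :
    ‖pos e m c‖ ≤ Fintype.card J / ((m : ℝ) + 1) := by
  refine (norm_sum_le _ _).trans ?_
  refine (Finset.sum_le_card_nsmul _ _ (1 / ((m : ℝ) + 1)) fun j _ => ?_).trans ?_
  · have h1 : ((c j : ℕ) : ℝ) ≤ (m : ℝ) + 1 := by exact_mod_cast (c j).2.le
    have h0 : (0:ℝ) ≤ ((c j : ℕ) : ℝ) := Nat.cast_nonneg _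
    have h2 : ((c j : ℕ) : ℝ) * tt m ≤ 1 / ((m : ℝ) + 1) := by
      refine (mul_le_mul_of_nonneg_right h1 (tt_pos m).le).trans (le_of_eq ?_)
      unfold tt
      field_simp
    rw [norm_smul, Real.norm_eq_abs, abs_of_nonneg (mul_nonneg h0 (tt_pos m).le)]
    have h3 := mul_le_mul_of_nonneg_left (he j) (mul_nonneg h0 (tt_pos m).le)
    linarith
  · rw [nsmul_eq_mul, Finset.card_univ, mul_one_div]

/-- average over a small grid -/
noncomputable def Av (e : J → E) (m : ℕ) (G : E → ℝ) (y : E) : ℝ :=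
  (Fintype.card (J → Fin (m + 1)) : ℝ)⁻¹ * ∑ c : J → Fin (m + 1), G (y + pos e m c)

theorem card_pos' (m : ℕ) : (0:ℝ) < Fintype.card (J → Fin (m + 1)) := by
  exact_mod_cast Fintype.card_pos

theorem Av_local {e : J → E} (he : ∀ j, ‖e j‖ ≤ 1) (m : ℕ) {G : E → ℝ} {y : E} {a B : ℝ}
    (h : ∀ z : E, ‖z‖ ≤ Fintype.card J / ((m : ℝ) + 1) → |G (y + z) - a| ≤ B) :
    |Av e m G y - a| ≤ B := by
  have hc := card_pos' (J := J) m
  have e1 : Av e m G y - a = (Fintype.card (J → Fin (m + 1)) : ℝ)⁻¹ *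
      ∑ c : J → Fin (m + 1), (G (y + pos e m c) - a) := by
    rw [Finset.sum_sub_distrib, Finset.sum_const, Finset.card_univ, nsmul_eq_mul]
    unfold Av
    field_simp
  rw [e1, abs_mul, abs_of_pos (inv_pos.2 hc), inv_mul_le_iff₀ hc]
  refine (Finset.abs_sum_le_sum_abs _ _).trans ?_
  refine (Finset.sum_le_card_nsmul _ _ B fun c _ => h _ (norm_pos_le he m c)).trans ?_
  rw [nsmul_eq_mul, Finset.card_univ]

theorem Av_cont (e : J → E) (m : ℕ) {G : E → ℝ} (hG : Continuous G) : Continuous (Av e m G) := by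
  unfold Av
  fun_prop

theorem Av_inv (e : J → E) (m : ℕ) {G : E → ℝ} {B : ℝ} (hG : ∀ u, |G u| ≤ B) (y : E) (x : J) :
    |Av e m G (y + tt m • e x) - Av e m G y| ≤ 2 * B / ((m : ℝ) + 1) := by
  have hc := card_pos' (J := J) m
  let σ := Equiv.funSplitAt x (Fin (m + 1))
  let p : ({j // j ≠ x} → Fin (m + 1)) → E := fun r => ∑ j, (((r j : ℕ) : ℝ) * tt m) • e j
  have hpos : ∀ (a : Fin (m + 1)) r, pos e m (σ.symm (a, r)) = (((a : ℕ) : ℝ) * tt m) • e x + p r := by
    intro a r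
    unfold pos
    rw [Fintype.sum_eq_add_sum_subtype_ne _ x]
    congr 1
    · simp [σ]
    · refine Finset.sum_congr rfl fun j _ => ?_
      have : σ.symm (a, r) j = r j := by simp [σ, j.2]
      rw [this]
  have e1 : Av e m G (y + tt m • e x) - Av e m G y = (Fintype.card (J → Fin (m + 1)) : ℝ)⁻¹ *
      ∑ r : ({j // j ≠ x} → Fin (m + 1)),
        (G (y + p r + (((m + 1 : ℕ) : ℝ) * tt m) • e x) - G (y + p r + (((0 : ℕ) : ℝ) * tt m) • e x)) := by
    unfold Av
    rw [← mul_sub, ← Finset.sum_sub_distrib, ← σ.symm.sum_comp, Fintype.sum_prod_type_right]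
    congr 1
    refine Finset.sum_congr rfl fun r _ => ?_
    rw [← Finset.sum_range_sub (fun a : ℕ => G (y + p r + ((a : ℝ) * tt m) • e x)),
      ← Fin.sum_univ_eq_sum_range (fun a : ℕ => G (y + p r + (((a + 1 : ℕ) : ℝ) * tt m) • e x)
        - G (y + p r + ((a : ℝ) * tt m) • e x))]
    refine Finset.sum_congr rfl fun a _ => ?_
    rw [hpos]
    congr 2
    · push_cast
      rw [add_mul, one_mul, add_smul]
      abel
    · abel
  have hcard : (Fintype.card (J → Fin (m + 1)) : ℝ)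
      = ((m : ℝ) + 1) * Fintype.card ({j // j ≠ x} → Fin (m + 1)) := by
    rw [Fintype.card_congr σ, Fintype.card_prod, Fintype.card_fin]
    push_cast
    ring
  rw [e1, abs_mul, abs_of_pos (inv_pos.2 hc), inv_mul_le_iff₀ hc]
  refine (Finset.abs_sum_le_sum_abs _ _).trans ?_
  refine (Finset.sum_le_card_nsmul _ _ (2 * B) fun r _ => ?_).trans ?_
  · refine (abs_sub _ _).trans ?_
    linarith [hG (y + p r + (((m + 1 : ℕ) : ℝ) * tt m) • e x),
      hG (y + p r + (((0 : ℕ) : ℝ) * tt m) • e x)]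
  · rw [nsmul_eq_mul, Finset.card_univ, hcard]
    refine le_of_eq ?_
    field_simp

/-- averaged difference quotient in direction `w` -/
noncomputable def Dq (e : J → E) (m : ℕ) (w : E) (f : E → ℝ) (y : E) : ℝ :=
  Av e m (fun u => (tt m)⁻¹ * (f (u + tt m • w) - f u)) y

theorem dq_bound (m : ℕ) (w : E) {f : E → ℝ} {L : ℝ} (hf : Lip L f) (u : E) :
    |(tt m)⁻¹ * (f (u + tt m • w) - f u)| ≤ L * ‖w‖ := by
  have := hf (u + tt m • w) u
  rw [dist_eq_norm, add_sub_cancel_left, norm_smul, Real.norm_eq_abs, abs_of_pos (tt_pos m)] at this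
  rw [abs_mul, abs_of_pos (inv_pos.2 (tt_pos m)), inv_mul_le_iff₀ (tt_pos m)]
  linarith

theorem Dq_bound {e : J → E} (he : ∀ j, ‖e j‖ ≤ 1) (m : ℕ) (w : E) {f : E → ℝ} {L : ℝ}
    (hf : Lip L f) (y : E) : |Dq e m w f y| ≤ L * ‖w‖ := by
  have := Av_local he m (G := fun u => (tt m)⁻¹ * (f (u + tt m • w) - f u)) (y := y) (a := 0)
    (B := L * ‖w‖) (fun z _ => by rw [sub_zero]; exact dq_bound m w hf _)
  rwa [sub_zero] at this

theorem Dq_cont (e : J → E) (m : ℕ) (w : E) {f : E → ℝ} (hf : Continuous f) :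
    Continuous (Dq e m w f) :=
  Av_cont e m (G := fun u => (tt m)⁻¹ * (f (u + tt m • w) - f u)) (by fun_prop)

theorem Dq_lin (e : J → E) (m : ℕ) (w : E) (f g : E → ℝ) (c : ℝ) (y : E) :
    Dq e m w (fun u => f u + c * g u) y = Dq e m w f y + c * Dq e m w g y := by
  unfold Dq Av
  rw [mul_left_comm, ← mul_add]
  congr 1
  rw [Finset.mul_sum, ← Finset.sum_add_distrib]
  exact Finset.sum_congr rfl fun c _ => by ring

theorem Dq_eq (e : J → E) (m : ℕ) (w : E) (f : E → ℝ) (y : E) :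
    Dq e m w f y = (tt m)⁻¹ * (Av e m f (y + tt m • w) - Av e m f y) := by
  unfold Dq Av
  rw [← mul_sub, mul_left_comm, ← Finset.sum_sub_distrib, ← Finset.mul_sum]
  congr 2
  refine Finset.sum_congr rfl fun c _ => ?_
  rw [add_right_comm]

theorem Dq_step (e : J → E) (m : ℕ) (w : E) {f : E → ℝ} {L : ℝ} (hf : Lip L f) (y : E) (x : J) :
    |Dq e m (w + e x) f y - Dq e m w f y - Dq e m (e x) f y| ≤ 2 * (L * ‖w‖) / ((m : ℝ) + 1) := by
  have h1 := Av_inv e m (G := fun u => (tt m)⁻¹ * (f (u + tt m • w) - f u)) (dq_bound m w hf) y x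
  have e1 : Dq e m (w + e x) f y - Dq e m w f y - Dq e m (e x) f y
      = Dq e m w f (y + tt m • e x) - Dq e m w f y := by
    simp only [Dq_eq]
    have : y + tt m • (w + e x) = y + tt m • e x + tt m • w := by rw [smul_add]; abel
    rw [this]
    ring
  rw [e1]
  exact h1

/-- limit along a fixed free ultrafilter -/
theorem ulim_exists {s : ℕ → ℝ} {B : ℝ} (h : ∀ m, |s m| ≤ B) :
    ∃ a, Tendsto s (hyperfilter ℕ) (𝓝 a) := by
  have hle : ((hyperfilter ℕ).map s : Filter ℝ) ≤ 𝓟 (Set.Icc (-B) B) := by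
    rw [le_principal_iff]
    exact Filter.mem_map.2 (Filter.univ_mem' fun k => abs_le.1 (h k))
  obtain ⟨a, -, ha⟩ := isCompact_Icc.ultrafilter_le_nhds ((hyperfilter ℕ).map s) hle
  exact ⟨a, ha⟩

theorem hyper_le : (hyperfilter ℕ : Filter ℕ) ≤ atTop := by
  rw [← Nat.cofinite_eq_atTop]; exact hyperfilter_le_cofinite

theorem additive_int {A : Type*} [AddCommGroup A] [Module ℝ A] (e : J → E) (φ : E → A)
    (h0 : φ 0 = 0) (hs : ∀ w x, φ (w + e x) = φ w + φ (e x)) (n : J → ℤ) :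
    φ (∑ x, (n x : ℝ) • e x) = ∑ x, (n x : ℝ) • φ (e x) := by
  have h1 : ∀ (x : J) (k : ℤ) (w : E), φ (w + (k : ℝ) • e x) = φ w + (k : ℝ) • φ (e x) := by
    intro x k
    induction k using Int.induction_on with
    | zero => intro w; simp
    | succ k ih =>
      intro w
      push_cast at ih ⊢
      rw [add_smul, one_smul, ← add_assoc, hs, ih, add_smul, one_smul, add_assoc]
    | pred k ih =>
      intro w
      push_cast at ih ⊢
      have h2 := hs (w + (-(k : ℝ) - 1) • e x) x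
      have e1 : w + (-(k : ℝ) - 1) • e x + e x = w + (-(k : ℝ)) • e x := by
        rw [sub_smul, one_smul]; abel
      rw [e1, ih] at h2
      rw [sub_smul (-(k : ℝ)) 1 (φ (e x)), one_smul, ← add_sub_assoc, h2]
      abel
  have h2 : ∀ s : Finset J, φ (∑ x ∈ s, (n x : ℝ) • e x) = ∑ x ∈ s, (n x : ℝ) • φ (e x) := by
    intro s
    induction s using Finset.induction_on with
    | empty => simpa using h0
    | insert x s hx ih => rw [Finset.sum_insert hx, Finset.sum_insert hx, add_comm, h1, ih, add_comm]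
  exact h2 _

end H441Z.FB
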