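import Pool.Agent.H441Z.FB.Av

set_option autoImplicit false
set_option maxHeartbeats 400000
set_option linter.unusedSectionVars false

open Finset Filter Topology MeasureTheory

namespace H441Z.FB

open H441Z.FL

variable {E : Type*} [NormedAddCommGroup E] [NormedSpace ℝ E] {J : Type} [Fintype J]
  [DecidableEq J] {X : Type*} [NormedAddCommGroup X] [NormedSpace ℝ X]

theorem lip_comp {δ : E → X} (hδ : LipschitzWith 1 δ) (ξ : X →L[ℝ] ℝ) :
    Lip ‖ξ‖ (fun y => ξ (δ y)) := by
  intro x y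
  show |ξ (δ x) - ξ (δ y)| ≤ _
  rw [← map_sub, ← Real.norm_eq_abs]
  refine (ξ.le_opNorm _).trans (mul_le_mul_of_nonneg_left ?_ (norm_nonneg _))
  have := hδ.dist_le_mul x y
  rwa [NNReal.coe_one, one_mul, dist_eq_norm] at this

/-- the approximate derivation -/
noncomputable def Tm (e : J → E) (Ut : (J → ℝ) →L[ℝ] E) (m : ℕ) (h : (J → ℝ) → ℝ) (w : E)
    (f : E → ℝ) : ℝ := ∫ s, h s * Dq e m w f (Ut s)

theorem Tm_int {e : J → E} (he : ∀ j, ‖e j‖ ≤ 1) (Ut : (J → ℝ) →L[ℝ] E) (m : ℕ)
    {h : (J → ℝ) → ℝ} (hh : Integrable h) (w : E) {f : E → ℝ} {L : ℝ} (hf : Lip L f) :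
    Integrable (fun s => h s * Dq e m w f (Ut s)) :=
  hh.mul_bdd (c := L * ‖w‖)
    ((Dq_cont e m w hf.continuous).comp Ut.continuous).aestronglyMeasurable
    (Eventually.of_forall fun _ => Dq_bound he m w hf _)

theorem abs_int_mul_le {h g : (J → ℝ) → ℝ} (hh : Integrable h) {B : ℝ} (hg : ∀ s, |g s| ≤ B) :
    |∫ s, h s * g s| ≤ B * ∫ s, |h s| := by
  rw [← integral_const_mul, ← Real.norm_eq_abs]
  refine norm_integral_le_of_norm_le (hh.abs.const_mul B) (Eventually.of_forall fun s => ?_)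
  rw [Real.norm_eq_abs, abs_mul, mul_comm]
  exact mul_le_mul_of_nonneg_right (hg s) (abs_nonneg _)

theorem exists_T {e : J → E} (he : ∀ j, ‖e j‖ ≤ 1) (Ut : (J → ℝ) →L[ℝ] E) {δ : E → X}
    (hδ : LipschitzWith 1 δ) :
    ∃ T : ((J → ℝ) → ℝ) → E → ((X →L[ℝ] ℝ) →L[ℝ] ℝ), ∀ h, Integrable h → ∀ w,
      (∀ ξ : X →L[ℝ] ℝ, Tendsto (fun m => Tm e Ut m h w (fun y => ξ (δ y))) (hyperfilter ℕ)
        (𝓝 (T h w ξ))) ∧ ‖T h w‖ ≤ ‖w‖ * ∫ s, |h s| := by
  have key : ∀ (h : (J → ℝ) → ℝ) (w : E), ∃ τ : (X →L[ℝ] ℝ) →L[ℝ] ℝ, Integrable h →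
      (∀ ξ : X →L[ℝ] ℝ, Tendsto (fun m => Tm e Ut m h w (fun y => ξ (δ y))) (hyperfilter ℕ)
        (𝓝 (τ ξ))) ∧ ‖τ‖ ≤ ‖w‖ * ∫ s, |h s| := by
    intro h w
    by_cases hh : Integrable h
    swap
    · exact ⟨0, fun h' => absurd h' hh⟩
    have hb : ∀ (ξ : X →L[ℝ] ℝ) m, |Tm e Ut m h w (fun y => ξ (δ y))| ≤ ‖ξ‖ * ‖w‖ * ∫ s, |h s| :=
      fun ξ m => abs_int_mul_le hh (fun s => Dq_bound he m w (lip_comp hδ ξ) _)
    choose τ hτ using fun ξ => ulim_exists (hb ξ)
    have hlin : ∀ (ξ ζ : X →L[ℝ] ℝ) (c : ℝ), τ (ξ + c • ζ) = τ ξ + c * τ ζ := by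
      intro ξ ζ c
      refine tendsto_nhds_unique (hτ (ξ + c • ζ)) (((hτ ξ).add ((hτ ζ).const_mul c)).congr ?_)
      intro m
      have e1 : (fun y => (ξ + c • ζ) (δ y)) = fun y => ξ (δ y) + c * ζ (δ y) := by
        ext y; simp
      rw [e1]
      unfold Tm
      rw [← integral_const_mul, ← integral_add (Tm_int he Ut m hh w (lip_comp hδ ξ))
        ((Tm_int he Ut m hh w (lip_comp hδ ζ)).const_mul c)]
      refine integral_congr_ae (Eventually.of_forall fun s => ?_)
      simp only [Dq_lin]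
      ring
    have h0 : τ 0 = 0 := by
      have := hlin 0 0 1
      simp only [smul_zero, add_zero, one_mul] at this
      linarith
    let lm : (X →L[ℝ] ℝ) →ₗ[ℝ] ℝ :=
      { toFun := τ
        map_add' := fun ξ ζ => by simpa using hlin ξ ζ 1
        map_smul' := fun c ζ => by simpa [h0] using hlin 0 ζ c }
    have hbd : ∀ ξ, ‖lm ξ‖ ≤ (‖w‖ * ∫ s, |h s|) * ‖ξ‖ := by
      intro ξ
      have := le_of_tendsto' (hτ ξ).abs (hb ξ)
      rw [Real.norm_eq_abs]
      refine this.trans (le_of_eq (by ring))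
    refine ⟨lm.mkContinuous _ hbd, fun _ => ⟨hτ, ?_⟩⟩
    exact LinearMap.mkContinuous_norm_le _
      (mul_nonneg (norm_nonneg _) (integral_nonneg fun s => abs_nonneg _)) hbd
  choose T hT using key
  exact ⟨T, fun h hh w => hT h w hh⟩

section
variable {e : J → E} (he : ∀ j, ‖e j‖ ≤ 1) {Ut : (J → ℝ) →L[ℝ] E} {δ : E → X}
  (hδ : LipschitzWith 1 δ) {T : ((J → ℝ) → ℝ) → E → ((X →L[ℝ] ℝ) →L[ℝ] ℝ)}
  (hT : ∀ h, Integrable h → ∀ w (ξ : X →L[ℝ] ℝ),
    Tendsto (fun m => Tm e Ut m h w (fun y => ξ (δ y))) (hyperfilter ℕ) (𝓝 (T h w ξ)))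
include he hδ hT

theorem T_lin {h g : (J → ℝ) → ℝ} (hh : Integrable h) (hg : Integrable g) (c : ℝ) (w : E) :
    T (fun s => h s + c * g s) w = T h w + c • T g w := by
  ext ξ
  refine tendsto_nhds_unique (hT _ (hh.add (hg.const_mul c)) w ξ)
    (((hT h hh w ξ).add ((hT g hg w ξ).const_mul c)).congr ?_)
  intro m
  unfold Tm
  rw [← integral_const_mul, ← integral_add (Tm_int he Ut m hh w (lip_comp hδ ξ))
    ((Tm_int he Ut m hg w (lip_comp hδ ξ)).const_mul c)]
  refine integral_congr_ae (Eventually.of_forall fun s => ?_)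
  simp only [Pi.add_apply]
  ring

theorem T_int {h : (J → ℝ) → ℝ} (hh : Integrable h) (n : J → ℤ) :
    T h (∑ x, (n x : ℝ) • e x) = ∑ x, (n x : ℝ) • T h (e x) := by
  refine additive_int e (T h) ?_ ?_ n
  · ext ξ
    refine tendsto_nhds_unique (hT h hh 0 ξ) (tendsto_const_nhds.congr fun m => ?_)
    simp [Tm, Dq_eq]
  · intro w x
    ext ξ
    have h1 := ((hT h hh (w + e x) ξ).sub (hT h hh w ξ)).sub (hT h hh (e x) ξ)
    have h2 : Tendsto (fun m => Tm e Ut m h (w + e x) (fun y => ξ (δ y))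
        - Tm e Ut m h w (fun y => ξ (δ y)) - Tm e Ut m h (e x) (fun y => ξ (δ y)))
        atTop (𝓝 0) := by
      refine squeeze_zero_norm (fun m => ?_) (tendsto_inv_succ (2 * (‖ξ‖ * ‖w‖) * ∫ s, |h s|))
      have hl := lip_comp hδ ξ
      unfold Tm
      have i0 : Integrable (fun s => h s * Dq e m (w + e x) (fun y => ξ (δ y)) (Ut s)
          - h s * Dq e m w (fun y => ξ (δ y)) (Ut s)) :=
        (Tm_int he Ut m hh _ hl).sub (Tm_int he Ut m hh _ hl)
      rw [← integral_sub (Tm_int he Ut m hh _ hl) (Tm_int he Ut m hh _ hl),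
        ← integral_sub i0 (Tm_int he Ut m hh _ hl)]
      have h3 := abs_int_mul_le hh (g := fun s => Dq e m (w + e x) (fun y => ξ (δ y)) (Ut s)
        - Dq e m w (fun y => ξ (δ y)) (Ut s) - Dq e m (e x) (fun y => ξ (δ y)) (Ut s))
        (fun s => Dq_step e m w hl (Ut s) x)
      rw [Real.norm_eq_abs]
      simp only [mul_sub] at h3
      refine h3.trans (le_of_eq (by ring))
    have h3 := tendsto_nhds_unique h1 (h2.mono_left hyper_le)
    simp only [add_apply]
    linarith

theorem T_const {h : (J → ℝ) → ℝ} (hh : Integrable h) (w : E) (ξ : X →L[ℝ] ℝ) {c r : ℝ}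
    (hr : 0 < r) (hc : ∀ s, h s ≠ 0 → ∀ z : E, ‖z‖ ≤ r → ∀ t : ℝ, 0 < t → t ≤ r →
      ξ (δ (Ut s + z + t • w)) - ξ (δ (Ut s + z)) = t * c) :
    T h w ξ = c * ∫ s, h s := by
  refine tendsto_nhds_unique (hT h hh w ξ) (Tendsto.mono_left ?_ hyper_le)
  refine tendsto_const_nhds.congr' ?_
  have h1 := (tendsto_inv_succ (Fintype.card J)).eventually (ge_mem_nhds hr)
  have h2 := (tendsto_inv_succ 1).eventually (ge_mem_nhds hr)
  filter_upwards [h1, h2] with m hm1 hm2
  unfold Tm
  rw [← integral_const_mul]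
  refine integral_congr_ae (Eventually.of_forall fun s => ?_)
  by_cases hs : h s = 0
  · simp [hs]
  have h3 := Av_local he m (G := fun u => (tt m)⁻¹ * (ξ (δ (u + tt m • w)) - ξ (δ u)))
    (y := Ut s) (a := c) (B := 0) (fun z hz => by
      rw [hc s hs z (hz.trans hm1) (tt m) (tt_pos m) ((tt_le m).trans hm2), ← mul_assoc,
        inv_mul_cancel₀ (tt_pos m).ne']
      simp)
  rw [abs_nonpos_iff, sub_eq_zero] at h3
  show c * h s = h s * Dq e m w (fun y => ξ (δ y)) (Ut s)
  unfold Dq
  rw [h3, mul_comm]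

theorem T_mem [CompleteSpace X] {h : (J → ℝ) → ℝ} {K : NNReal} (hK : LipschitzWith K h)
    (hs : ∀ s, 1 < ‖s‖ → h s = 0) (d : J → ℝ) (hd : ‖d‖ ≤ 1) :
    ∃ μ : X, ∀ ξ : X →L[ℝ] ℝ, T h (Ut d) ξ = ξ μ := by
  have hcs : HasCompactSupport h :=
    HasCompactSupport.intro (isCompact_closedBall 0 1) (fun s hs' => hs s (by simpa using hs'))
  have hh : Integrable h := hK.continuous.integrable_of_hasCompactSupport hcs
  have hδU : Continuous (fun s => δ (Ut s)) := hδ.continuous.comp Ut.continuous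
  have hz : ∀ s, 2 < ‖s‖ → ∀ t : ℝ, |t| ≤ 1 → h (s + t • (-d)) = 0 := by
    intro s hs2 t ht
    apply hs
    have h1 : ‖t • (-d)‖ ≤ 1 := by
      rw [norm_smul, norm_neg, Real.norm_eq_abs]
      exact mul_le_one₀ ht (norm_nonneg _) hd
    have h2 := norm_sub_le (s + t • (-d)) (t • (-d))
    rw [add_sub_cancel_right] at h2
    linarith
  have hld : ∀ s, 2 < ‖s‖ → lineDeriv ℝ h s (-d) = 0 := by
    intro s hs2
    have : (fun t : ℝ => h (s + t • (-d))) =ᶠ[𝓝 0] fun _ => 0 := by
      filter_upwards [Metric.closedBall_mem_nhds (0:ℝ) zero_lt_one] with t ht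
      exact hz s hs2 t (by simpa using ht)
    unfold lineDeriv
    rw [this.deriv_eq]
    simp
  have hint : Integrable (fun s => lineDeriv ℝ h s (-d) • δ (Ut s)) := by
    have h1 : IntegrableOn (fun s => δ (Ut s)) (Metric.closedBall 0 2) :=
      hδU.continuousOn.integrableOn_compact (isCompact_closedBall 0 2)
    have h2 : IntegrableOn (fun s => lineDeriv ℝ h s (-d) • δ (Ut s)) (Metric.closedBall 0 2) :=
      Integrable.bdd_smul h1 (K * ‖-d‖) (aestronglyMeasurable_lineDeriv hK.continuous _)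
        (Eventually.of_forall fun s => norm_lineDeriv_le_of_lipschitz ℝ hK)
    refine h2.integrable_of_forall_notMem_eq_zero fun s hs' => ?_
    rw [hld s (by simpa using hs'), zero_smul]
  refine ⟨∫ s, lineDeriv ℝ h s (-d) • δ (Ut s), fun ξ => ?_⟩
  rw [← ξ.integral_comp_comm hint]
  simp only [map_smul, smul_eq_mul]
  refine tendsto_nhds_unique (hT h hh _ ξ) (Tendsto.mono_left ?_ hyper_le)
  set f : E → ℝ := fun y => ξ (δ y) with hf
  have hl : Lip ‖ξ‖ f := lip_comp hδ ξ
  have hfU : Continuous (fun s => f (Ut s)) := hl.continuous.comp Ut.continuous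
  have main := (hK.integral_inv_smul_sub_mul_tendsto_integral_lineDeriv_mul' (μ := volume) hcs hfU
    (-d)).comp tt_tendsto
  let q : ℕ → (J → ℝ) → ℝ := fun m s => (tt m)⁻¹ • (h (s + tt m • (-d)) - h s)
  have hqi : ∀ m (G : (J → ℝ) → ℝ), Continuous G → Integrable (fun s => q m s * G s) := by
    intro m G hG
    refine Continuous.integrable_of_hasCompactSupport ?_ ?_
    · have := hK.continuous
      simp only [q]
      fun_prop
    · refine HasCompactSupport.intro (isCompact_closedBall 0 2) (fun s hs' => ?_)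
      have h1 : 2 < ‖s‖ := by simpa using hs'
      have h2 : |tt m| ≤ 1 := by
        rw [abs_of_pos (tt_pos m)]
        refine (tt_le m).trans ?_
        rw [div_le_one (by positivity)]
        have : (0:ℝ) ≤ m := Nat.cast_nonneg m
        linarith
      simp only [q]
      rw [hz s h1 _ h2, hs s (by linarith)]
      simp
  have err : Tendsto (fun m => ∫ s, q m s * (Av e m f (Ut s) - f (Ut s))) atTop (𝓝 0) := by
    refine squeeze_zero_norm (fun m => ?_) (tendsto_inv_succ
      (K * (‖ξ‖ * Fintype.card J) * (volume : Measure (J → ℝ)).real (Metric.closedBall 0 2)))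
    have h1 : ∀ s, ‖q m s * (Av e m f (Ut s) - f (Ut s))‖
        ≤ (Metric.closedBall (0 : J → ℝ) 2).indicator
          (fun _ => K * (‖ξ‖ * (Fintype.card J / ((m : ℝ) + 1)))) s := by
      intro s
      by_cases hs' : s ∈ Metric.closedBall (0 : J → ℝ) 2
      · rw [Set.indicator_of_mem hs', norm_mul]
        refine mul_le_mul ?_ ?_ (norm_nonneg _) K.2
        · have h2 := hK.dist_le_mul (s + tt m • (-d)) s
          rw [dist_eq_norm, dist_eq_norm, add_sub_cancel_left, norm_smul, norm_neg,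
            Real.norm_eq_abs (tt m), abs_of_pos (tt_pos m)] at h2
          simp only [q]
          rw [norm_smul, norm_inv, Real.norm_eq_abs (tt m), abs_of_pos (tt_pos m),
            inv_mul_le_iff₀ (tt_pos m)]
          have h3 : (K:ℝ) * (tt m * ‖d‖) ≤ K * (tt m * 1) :=
            mul_le_mul_of_nonneg_left (mul_le_mul_of_nonneg_left hd (tt_pos m).le) K.2
          linarith
        · refine Av_local he m fun z hz => ?_
          have := hl (Ut s + z) (Ut s)
          rw [dist_eq_norm, add_sub_cancel_left] at this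
          exact this.trans (mul_le_mul_of_nonneg_left hz (norm_nonneg _))
      · rw [Set.indicator_of_notMem hs']
        have h1 : 2 < ‖s‖ := by simpa using hs'
        have h2 : |tt m| ≤ 1 := by
          rw [abs_of_pos (tt_pos m)]
          refine (tt_le m).trans ?_
          rw [div_le_one (by positivity)]
          have : (0:ℝ) ≤ m := Nat.cast_nonneg m
          linarith
        simp only [q]
        rw [hz s h1 _ h2, hs s (by linarith)]
        simp
    have h2 : Integrable ((Metric.closedBall (0 : J → ℝ) 2).indicator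
          (fun _ => (K:ℝ) * (‖ξ‖ * (Fintype.card J / ((m : ℝ) + 1))))) :=
      (integrable_indicator_iff Metric.isClosed_closedBall.measurableSet).2
        (continuousOn_const.integrableOn_compact (isCompact_closedBall 0 2))
    refine (norm_integral_le_of_norm_le h2 (Eventually.of_forall h1)).trans (le_of_eq ?_)
    rw [integral_indicator_const _ Metric.isClosed_closedBall.measurableSet, smul_eq_mul]
    ring
  have := main.add err
  rw [add_zero] at this
  refine this.congr fun m => ?_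
  have hG : Continuous (fun s => Av e m f (Ut s)) :=
    (Av_cont e m hl.continuous).comp Ut.continuous
  have e1 : Tm e Ut m h (Ut d) f = ∫ s, q m s * Av e m f (Ut s) := by
    have i1 : Integrable (fun s => h s * Av e m f (Ut s)) :=
      (hK.continuous.mul hG).integrable_of_hasCompactSupport hcs.mul_right
    have i2 : Integrable (fun s => h s * Av e m f (Ut (s + tt m • d))) :=
      (hK.continuous.mul (hG.comp (by fun_prop))).integrable_of_hasCompactSupport hcs.mul_right
    have i3 : Integrable (fun s => h (s + tt m • (-d)) * Av e m f (Ut s)) := by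
      have := i2.comp_add_right (tt m • (-d))
      simpa using this
    have e2 : ∫ s, h s * Av e m f (Ut (s + tt m • d))
        = ∫ s, h (s + tt m • (-d)) * Av e m f (Ut s) := by
      rw [← integral_add_right_eq_self _ (tt m • (-d))]
      simp
    have e3 : Tm e Ut m h (Ut d) f = (tt m)⁻¹ * ((∫ s, h s * Av e m f (Ut (s + tt m • d)))
        - ∫ s, h s * Av e m f (Ut s)) := by
      rw [← integral_sub i2 i1, ← integral_const_mul]
      refine integral_congr_ae (Eventually.of_forall fun s => ?_)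
      simp only [Dq_eq, map_add, map_smul]
      ring
    rw [e3, e2, ← integral_sub i3 i1, ← integral_const_mul]
    refine integral_congr_ae (Eventually.of_forall fun s => ?_)
    simp only [q, smul_eq_mul]
    ring
  rw [e1]
  show (∫ s, q m s * f (Ut s)) + _ = _
  have hG' : Continuous (fun s => Av e m f (Ut s) - f (Ut s)) := hG.sub hfU
  rw [← integral_add (hqi m _ hfU) (hqi m _ hG')]
  refine integral_congr_ae (Eventually.of_forall fun s => ?_)
  simp only
  ring

end

end H441Z.FB
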