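import Pool.Agent.H441Z.FB.Der

set_option autoImplicit false
set_option maxHeartbeats 400000
set_option linter.unusedSectionVars false

open Finset Filter Topology MeasureTheory

namespace H441Z.FB

open H441Z.FL

variable {E : Type*} [NormedAddCommGroup E] {X : Type*} [NormedAddCommGroup X] [NormedSpace ℝ X]

/-- the data of a free space that the argument uses -/
structure Free (δ : E → X) : Prop where
  zero : δ 0 = 0
  lip : LipschitzWith 1 δ
  dense : Dense ((Submodule.span ℝ (Set.range δ) : Submodule ℝ X) : Set X)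
  lift : ∀ (f : E → ℝ) (L : ℝ), 0 ≤ L → Lip L f → f 0 = 0 →
    ∃ ξ : X →L[ℝ] ℝ, ‖ξ‖ ≤ L ∧ ∀ y, ξ (δ y) = f y

theorem Free.norm_le {δ : E → X} (hF : Free δ) {ξ : X →L[ℝ] ℝ} {L : ℝ} (hL : 0 ≤ L)
    (h : Lip L (fun y => ξ (δ y))) : ‖ξ‖ ≤ L := by
  obtain ⟨ζ, h1, h2⟩ := hF.lift _ L hL h (by simp [hF.zero])
  have : ξ = ζ := ContinuousLinearMap.ext_on hF.dense (by
    rintro _ ⟨y, rfl⟩
    exact (h2 y).symm)
  rw [this]; exact h1

theorem Free.weak {δ : E → X} (hF : Free δ) (u : X) {L ε : ℝ} (hL : 0 ≤ L) (hε : 0 < ε) :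
    ∃ θ : ℝ, 0 < θ ∧ ∀ ξ : X →L[ℝ] ℝ, ‖ξ‖ ≤ L → (∀ y, |ξ (δ y)| ≤ θ) → |ξ u| ≤ ε := by
  obtain ⟨u', hu', hd⟩ := Metric.mem_closure_iff.1 (hF.dense u) (ε / (2 * (L + 1))) (by positivity)
  have key : ∀ v ∈ Submodule.span ℝ (Set.range δ), ∃ B : ℝ, 0 ≤ B ∧ ∀ (ξ : X →L[ℝ] ℝ) (θ : ℝ),
      (∀ y, |ξ (δ y)| ≤ θ) → |ξ v| ≤ B * θ := by
    intro v hv
    induction hv using Submodule.span_induction with
    | mem x hx =>
      obtain ⟨y, rfl⟩ := hx
      exact ⟨1, zero_le_one, fun ξ θ h => by simpa using h y⟩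
    | zero => exact ⟨0, le_rfl, fun ξ θ _ => by simp⟩
    | add x y _ _ hx hy =>
      obtain ⟨B, hB, h1⟩ := hx
      obtain ⟨B', hB', h2⟩ := hy
      refine ⟨B + B', by positivity, fun ξ θ h => ?_⟩
      rw [map_add]
      have := abs_add_le (ξ x) (ξ y)
      linarith [h1 ξ θ h, h2 ξ θ h]
    | smul c x _ hx =>
      obtain ⟨B, hB, h1⟩ := hx
      refine ⟨|c| * B, by positivity, fun ξ θ h => ?_⟩
      rw [map_smul, smul_eq_mul, abs_mul, mul_assoc]
      exact mul_le_mul_of_nonneg_left (h1 ξ θ h) (abs_nonneg c)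
  obtain ⟨B, hB, hb⟩ := key u' hu'
  refine ⟨ε / (2 * (B + 1)), by positivity, fun ξ hξ h => ?_⟩
  have h1 := hb ξ _ h
  have h2 : |ξ (u - u')| ≤ L * (ε / (2 * (L + 1))) := by
    rw [← Real.norm_eq_abs]
    refine (ξ.le_opNorm _).trans (mul_le_mul hξ ?_ (norm_nonneg _) hL)
    rw [← dist_eq_norm]; exact hd.le
  have h3 : L * (ε / (2 * (L + 1))) ≤ ε / 2 := by
    rw [mul_div_assoc', div_le_div_iff₀ (by positivity) (by positivity)]; nlinarith
  have h4 : B * (ε / (2 * (B + 1))) ≤ ε / 2 := by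
    rw [mul_div_assoc', div_le_div_iff₀ (by positivity) (by positivity)]; nlinarith
  have h5 := abs_add_le (ξ (u - u')) (ξ u')
  rw [← map_add, sub_add_cancel] at h5
  linarith

theorem mackey {α : Type*} [MeasurableSpace α] {μ : Measure α} {δ : E → X} (hF : Free δ)
    (S : (α → ℝ) → X) {C : ℝ} (hC : 0 ≤ C)
    (hS : ∀ h g : α → ℝ, Integrable h μ → Integrable g μ → ∀ c : ℝ,
      S (fun s => h s + c * g s) = S h + c • S g)
    (hSn : ∀ h : α → ℝ, Integrable h μ → ‖S h‖ ≤ C * ∫ s, |h s| ∂μ)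
    {K : Set α} (hK : MeasurableSet K) (hKμ : μ K ≠ ⊤) {V : Set E} (hV : V.Nonempty) {L ε : ℝ}
    (hL : 0 ≤ L) (hε : 0 < ε)
    (H : ∀ η : ℝ, 0 < η → ∃ (h : α → ℝ) (ξ : X →L[ℝ] ℝ), Integrable h μ ∧ (∀ s, |h s| ≤ 1) ∧
      (∀ s, s ∉ K → h s = 0) ∧ Lip L (fun y => ξ (δ y)) ∧ (∀ y ∈ V, ξ (δ y) = 0) ∧
      (∀ y, η ≤ Metric.infDist y V → ξ (δ y) = 0) ∧ ε ≤ ξ (S h)) : False := by
  have H' : ∀ η : ℝ, 0 < η → ∃ (η' : ℝ) (h : α → ℝ) (ξ : X →L[ℝ] ℝ), 0 < η' ∧ Integrable h μ ∧
      (∀ s, |h s| ≤ 1) ∧ (∀ s, s ∉ K → h s = 0) ∧ Lip (2 * L) (fun y => ξ (δ y)) ∧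
      (∀ y, Metric.infDist y V < η' → ξ (δ y) = 0) ∧
      (∀ y, η ≤ Metric.infDist y V → ξ (δ y) = 0) ∧ ε / 2 ≤ ξ (S h) := by
    intro η hη
    obtain ⟨h, ξ, h1, h2, h3, h4, h5, h6, h7⟩ := H η hη
    obtain ⟨θ, hθ, hw⟩ := hF.weak (S h) hL (half_pos hε)
    have hcl : Lip L (fun y => clamp θ (ξ (δ y))) := Lip.clamp ((Lip.const θ).mono hL) h4
    obtain ⟨ζ, hζ1, hζ2⟩ := hF.lift _ L hL hcl (by
      simp only [hF.zero, map_zero]; exact clamp_eq (by simp [hθ.le]))
    have h8 := hw ζ hζ1 (fun y => by rw [hζ2]; exact abs_clamp_le hθ.le _)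
    refine ⟨θ / (L + 1), h, ξ - ζ, by positivity, h1, h2, h3, ?_, ?_, ?_, ?_⟩
    · have := h4.sub hcl
      simp only [sub_apply, hζ2]
      exact this.mono (le_of_eq (by ring))
    · intro y hy
      obtain ⟨v, hv, hd⟩ := (Metric.infDist_lt_iff hV).1 hy
      have h9 := h4 y v
      simp only [h5 v hv, sub_zero] at h9
      have h10 : L * dist y v ≤ θ := by
        rw [lt_div_iff₀ (by positivity)] at hd
        nlinarith [dist_nonneg (x := y) (y := v)]
      simp only [sub_apply, hζ2]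
      rw [clamp_eq (h9.trans h10), sub_self]
    · intro y hy
      simp only [sub_apply, hζ2, h6 y hy]
      rw [clamp_eq (by simp [hθ.le]), sub_self]
    · simp only [sub_apply]
      linarith [le_abs_self (ζ (S h))]
  have key : ∀ i : ℕ, ∃ (Ω : Type) (_ : Fintype Ω) (_ : Nonempty Ω) (η : ℝ) (G : Ω → α → ℝ)
      (Ξ : Ω → X →L[ℝ] ℝ), 0 < η ∧ (∀ w, Integrable (G w) μ) ∧ (∀ w s, s ∉ K → G w s = 0) ∧
      (∀ s, ∑ w, G w s ^ 2 ≤ Fintype.card Ω * (i : ℝ)) ∧
      (∀ w, Lip (2 * (2 * L)) (fun y => Ξ w (δ y))) ∧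
      (∀ w y, Metric.infDist y V < η → Ξ w (δ y) = 0) ∧
      (∀ w x y, Metric.infDist y V < η → |Ξ w (δ x)| ≤ 2 * L * dist x y) ∧
      Fintype.card Ω * (i * (ε / 2)) ≤ ∑ w, Ξ w (S (G w)) := by
    intro i
    induction i with
    | zero =>
      refine ⟨Unit, inferInstance, inferInstance, 1, fun _ _ => 0, fun _ => 0, one_pos,
        fun _ => integrable_zero _ _ _, fun _ _ _ => rfl, by simp, ?_, by simp, ?_, by simp⟩
      · intro w x y; simp; positivity
      · intro w x y _; simp; positivity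
    | succ i ih =>
      obtain ⟨Ω, _, _, η, G, Ξ, hη, g1, g2, g3, g4, g5, g6, g7⟩ := ih
      obtain ⟨η', h, ξ, hη', h1, h2, h3, h4, h5, h6, h7⟩ := H' η hη
      let sg : Bool → ℝ := fun b => if b then 1 else -1
      have hsg : ∀ b, |sg b| = 1 := fun b => by cases b <;> simp [sg]
      refine ⟨Ω × Bool, inferInstance, inferInstance, min η η',
        fun w s => G w.1 s + sg w.2 * h s, fun w => Ξ w.1 + sg w.2 • ξ, lt_min hη hη',
        fun w => (g1 w.1).add (h1.const_mul _), fun w s hs => by simp [g2 w.1 s hs, h3 s hs],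
        ?_, ?_, ?_, ?_, ?_⟩
      · intro s
        rw [Fintype.sum_prod_type, Fintype.card_prod, Fintype.card_bool]
        have h8 : ∀ w : Ω, ∑ b : Bool, (G w s + sg b * h s) ^ 2 ≤ 2 * G w s ^ 2 + 2 := by
          intro w
          rw [Fintype.sum_bool]
          have h9 : h s ^ 2 ≤ 1 := by rw [← sq_abs]; nlinarith [h2 s, abs_nonneg (h s)]
          simp only [sg, if_true, Bool.false_eq_true, if_false]
          nlinarith
        refine (Finset.sum_le_sum fun w _ => h8 w).trans ?_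
        rw [Finset.sum_add_distrib, ← Finset.mul_sum]
        have := g3 s
        simp only [Finset.sum_const, Finset.card_univ, nsmul_eq_mul]
        push_cast
        nlinarith
      · intro w
        have hb : ∀ x y, |sg w.2 * ξ (δ x) - sg w.2 * ξ (δ y)| ≤ 2 * L * dist x y := by
          intro x y
          rw [← mul_sub, abs_mul, hsg, one_mul]; exact h4 x y
        have aux : ∀ x y, η ≤ Metric.infDist x V → Metric.infDist y V < η →
            |(Ξ w.1 + sg w.2 • ξ) (δ x) - (Ξ w.1 + sg w.2 • ξ) (δ y)| ≤ 2 * (2 * L) * dist x y := by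
          intro x y hx hy
          have h8 := g6 w.1 x y hy
          have h9 := hb x y
          simp only [add_apply, smul_apply, smul_eq_mul, h6 x hx, g5 w.1 y hy] at *
          have := abs_add_le (Ξ w.1 (δ x)) (sg w.2 * 0 - sg w.2 * ξ (δ y))
          have e1 : Ξ w.1 (δ x) + sg w.2 * 0 - (0 + sg w.2 * ξ (δ y))
              = Ξ w.1 (δ x) + (sg w.2 * 0 - sg w.2 * ξ (δ y)) := by ring
          rw [e1]; linarith
        intro x y
        rcases le_or_gt η (Metric.infDist x V) with hx | hx <;>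
          rcases le_or_gt η (Metric.infDist y V) with hy | hy
        · simpa [h6 x hx, h6 y hy] using g4 w.1 x y
        · exact aux x y hx hy
        · rw [abs_sub_comm, dist_comm]; exact aux y x hy hx
        · have h8 := hb x y
          have h9 : 0 ≤ 2 * L * dist x y := by positivity
          simp only [add_apply, smul_apply, smul_eq_mul, g5 w.1 x hx, g5 w.1 y hy, zero_add]
          linarith
      · intro w y hy
        simp [g5 w.1 y (hy.trans_le (min_le_left _ _)), h5 y (hy.trans_le (min_le_right _ _))]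
      · intro w x y hy
        rcases le_or_gt η (Metric.infDist x V) with hx | hx
        · simpa [h6 x hx] using g6 w.1 x y (hy.trans_le (min_le_left _ _))
        · have h8 := h4 x y
          simp only [h5 y (hy.trans_le (min_le_right _ _)), sub_zero] at h8
          simp only [add_apply, smul_apply, smul_eq_mul, g5 w.1 x hx, zero_add]
          rw [abs_mul, hsg, one_mul]; exact h8
      · rw [Fintype.sum_prod_type, Fintype.card_prod, Fintype.card_bool]
        have h8 : ∀ w : Ω, ∑ b : Bool, (Ξ w + sg b • ξ) (S (fun s => G w s + sg b * h s))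
            = 2 * Ξ w (S (G w)) + 2 * ξ (S h) := by
          intro w
          rw [Fintype.sum_bool, hS _ _ (g1 w) h1, hS _ _ (g1 w) h1]
          simp only [add_apply, smul_apply, map_add, map_smul, smul_eq_mul, sg, if_true,
            Bool.false_eq_true, if_false]
          ring
        rw [Finset.sum_congr rfl fun w _ => h8 w, Finset.sum_add_distrib, ← Finset.mul_sum]
        simp only [Finset.sum_const, Finset.card_univ, nsmul_eq_mul]
        have hc : (0:ℝ) ≤ Fintype.card Ω := by positivity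
        have := mul_le_mul_of_nonneg_left h7 hc
        push_cast
        nlinarith
  obtain ⟨k, hk⟩ := exists_nat_gt (8 * L * C * μ.real K / ε)
  have hk0 : (0:ℝ) < k := lt_of_le_of_lt (by positivity) hk
  obtain ⟨Ω, _, _, η, G, Ξ, hη, g1, g2, g3, g4, -, -, g7⟩ := key (k ^ 2)
  have hc : (0:ℝ) < Fintype.card Ω := by exact_mod_cast Fintype.card_pos
  have h1 : ∑ w, Ξ w (S (G w)) ≤ 4 * L * C * ∫ s, ∑ w, |G w s| ∂μ := by
    rw [integral_finsetSum _ (fun w _ => (g1 w).abs), Finset.mul_sum]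
    refine Finset.sum_le_sum fun w _ => ?_
    have h2 := hF.norm_le (by positivity) (g4 w)
    have h3 := hSn _ (g1 w)
    have h4 := (Ξ w).le_opNorm (S (G w))
    have h5 := mul_le_mul h2 h3 (norm_nonneg _) (by positivity)
    rw [Real.norm_eq_abs] at h4
    linarith [le_abs_self (Ξ w (S (G w)))]
  have h2 : ∫ s, ∑ w, |G w s| ∂μ ≤ μ.real K * (Fintype.card Ω * k) := by
    have h3 : Integrable (K.indicator (fun _ => (Fintype.card Ω : ℝ) * k)) μ :=
      (integrable_indicator_iff hK).2 (integrableOn_const hKμ)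
    have h4 := integral_mono (integrable_finsetSum _ (fun w _ => (g1 w).abs)) h3 (fun s => by
      by_cases hs : s ∈ K
      · rw [Set.indicator_of_mem hs]
        have h5 := g3 s
        have h6 : ∑ w, |G w s| ≤ ∑ w, (G w s ^ 2 / k + k) / 2 := by
          refine Finset.sum_le_sum fun w _ => ?_
          rw [le_div_iff₀ two_pos, div_add' _ _ _ hk0.ne', le_div_iff₀ hk0, ← sq_abs]
          nlinarith [sq_nonneg (|G w s| - k)]
        refine h6.trans ?_
        rw [← Finset.sum_div, Finset.sum_add_distrib, ← Finset.sum_div]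
        simp only [Finset.sum_const, Finset.card_univ, nsmul_eq_mul]
        have h7 : (∑ w, G w s ^ 2) / k ≤ Fintype.card Ω * k := by
          rw [div_le_iff₀ hk0]
          push_cast at h5
          nlinarith
        linarith
      · rw [Set.indicator_of_notMem hs]
        simp [g2 _ s hs])
    rw [integral_indicator_const _ hK, smul_eq_mul] at h4
    exact h4
  have h3 : Fintype.card Ω * (k ^ 2 * (ε / 2)) ≤ 4 * L * C * (μ.real K * (Fintype.card Ω * k)) := by
    push_cast at g7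
    exact g7.trans (h1.trans (mul_le_mul_of_nonneg_left h2 (by positivity)))
  rw [div_lt_iff₀ hε] at hk
  have h4 : (Fintype.card Ω * k) * (k * ε) ≤ (Fintype.card Ω * k) * (8 * L * C * μ.real K) := by
    nlinarith
  have h5 := le_of_mul_le_mul_left h4 (by positivity)
  linarith

end H441Z.FB
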