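import Pool.Agent.H441Z.FB.Osc

set_option autoImplicit false
set_option maxHeartbeats 400000
set_option linter.unusedSectionVars false

open Finset Filter Topology MeasureTheory

namespace H441Z.FB

open H441Z.FL

theorem key {X : Type*} [NormedAddCommGroup X] [NormedSpace ℝ X] [CompleteSpace X] {δ : L1 → X}
    (hF : Free δ) (P : ((X →L[ℝ] ℝ) →L[ℝ] ℝ) →L[ℝ] X)
    (hP : ∀ x : X, P (ContinuousLinearMap.apply ℝ ℝ x) = x) {C : ℝ} (hC : 0 ≤ C)
    (hPC : ∀ τ, ‖P τ‖ ≤ C * ‖τ‖)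
    {J : Type} [Fintype J] [DecidableEq J] {ι : J → ℕ} (hι : Function.Injective ι)
    (U : J → J → ℤ) (A : J → J → ℝ) (c α : ℝ) (hα : 0 ≤ α) (hA : ∀ x y, |A x y| ≤ α)
    (hperp : ∀ x y', ∑ y, (A x y - c * U x y) * U y y' = 0) :
    c * ∑ y, (U y y : ℝ) ≤ Fintype.card J * (6 * α * C) := by
  have he : ∀ x : J, ‖ee (ι x)‖ ≤ 1 := fun x => norm_ee _
  obtain ⟨T, hT0⟩ := exists_T (e := fun x : J => ee (ι x)) he (Ut ι U) hF.lip
  have hT := fun h hh w => (hT0 h hh w).1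
  let ρ : ℝ := 1 / (16 * (‖Ut ι U‖ + 1))
  have hρ : 0 < ρ := by positivity
  have hρ1 : ρ ≤ 1 / 2 := by
    refine one_div_le_one_div_of_le two_pos ?_
    linarith [norm_nonneg (Ut ι U)]
  have hρ2 : ‖Ut ι U‖ * ρ ≤ 1 / 16 := by
    simp only [ρ]
    rw [mul_one_div, div_le_div_iff₀ (by positivity) (by positivity)]
    linarith
  set I : ℝ := ρ ^ Fintype.card J * ∫ u : J → ℝ, tent u with hI
  have hI0 : 0 < I := mul_pos (by positivity) tent_int_pos
  have hint : ∀ n, Integrable (hh ρ n : (J → ℝ) → ℝ) := by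
    intro n
    obtain ⟨K, hK⟩ := hh_lip (J := J) ρ n
    exact hK.continuous.integrable_of_hasCompactSupport
      (HasCompactSupport.intro (isCompact_closedBall 0 1)
        (fun s hs' => hh_supp hρ hρ1 n s (by simpa using hs')))
  have habs : ∀ n, ∫ s : J → ℝ, |hh ρ n s| = I := by
    intro n
    rw [hI, ← hh_int hρ n]
    exact integral_congr_ae (Eventually.of_forall fun s => abs_of_nonneg (hh_nonneg ρ n s))
  have hsing : ∀ y x : J, |(Pi.single y (1:ℝ) : J → ℝ) x| ≤ 1 := by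
    intro y x
    rw [Pi.single_apply]
    split_ifs <;> simp
  choose ξ hξ1 hξ2 using fun (n : ℕ) (y : J) => hF.lift (ff ι U (Pi.single y 1) n) (6 * 1)
    (by norm_num) (ff_lip hι U zero_le_one (hsing y) n) (ff_zero ι U _ n)
  let Ξ : (J → ℝ) → ℕ → X →L[ℝ] ℝ := fun a n => ∑ y, a y • ξ n y
  have hΞ : ∀ a n u, Ξ a n (δ u) = ff ι U a n u := by
    intro a n u
    rw [← ff_lin]
    simp [Ξ, hξ2]
  have hΞL : ∀ (a : J → ℝ) (B : ℝ), 0 ≤ B → (∀ x, |a x| ≤ B) → ∀ n,
      Lip (6 * B) (fun u => Ξ a n (δ u)) := by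
    intro a B hB ha n
    simp only [hΞ]
    exact ff_lip hι U hB ha n
  have hSn : ∀ (x : J) (h : (J → ℝ) → ℝ), Integrable h →
      ‖P (T h (ee (ι x)))‖ ≤ C * ∫ s, |h s| := by
    intro x h hh
    refine (hPC _).trans (mul_le_mul_of_nonneg_left ?_ hC)
    refine (hT0 h hh _).2.trans ?_
    have h1 : 0 ≤ ∫ s, |h s| := integral_nonneg fun s => abs_nonneg _
    nlinarith [he x]
  -- (1) the bound
  have f1 : ∀ x n, Ξ (A x) n (P (T (hh ρ n) (ee (ι x)))) ≤ 6 * α * C * I := by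
    intro x n
    have h1 := hF.norm_le (by positivity) (hΞL (A x) α hα (hA x) n)
    have h2 := hSn x _ (hint n)
    rw [habs] at h2
    have h3 := (Ξ (A x) n).le_opNorm (P (T (hh ρ n) (ee (ι x))))
    have h4 := mul_le_mul h1 h2 (norm_nonneg _) (by positivity)
    rw [Real.norm_eq_abs] at h3
    linarith [le_abs_self (Ξ (A x) n (P (T (hh ρ n) (ee (ι x)))))]
  -- (2) tangential directions
  have f2 : ∀ n (y : J), ∑ x, (U x y : ℝ) * ξ n y (P (T (hh ρ n) (ee (ι x)))) = U y y * I := by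
    intro n y
    have hn : (0:ℝ) < (n : ℝ) + 1 := by positivity
    have h1 := T_int he hF.lip hT (hint n) (fun x => U x y)
    have h2 : ∑ x, (U x y : ℝ) * ξ n y (P (T (hh ρ n) (ee (ι x))))
        = ξ n y (P (T (hh ρ n) (vv ι U y))) := by
      unfold vv
      rw [h1]
      simp
    obtain ⟨K, hK⟩ := hh_lip (J := J) ρ n
    obtain ⟨μ, hμ⟩ := T_mem he hF.lip hT hK (hh_supp hρ hρ1 n) (Pi.single y 1)
      ((pi_norm_le_iff_of_nonneg zero_le_one).2 (hsing y))
    rw [Ut_single] at hμ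
    have h3 : T (hh ρ n) (vv ι U y) = ContinuousLinearMap.apply ℝ ℝ μ := by
      ext ζ; exact hμ ζ
    have h4 : ξ n y (P (T (hh ρ n) (vv ι U y))) = T (hh ρ n) (vv ι U y) (ξ n y) := by
      rw [hμ, h3, hP]
    rw [h2, h4, hI, ← hh_int hρ n]
    have hv := norm_nonneg (vv ι U y)
    refine T_const he hF.lip hT (hint n) _ _
      (r := 1 / (16 * ((n : ℝ) + 1) * (‖vv ι U y‖ + 1))) (by positivity) ?_
    intro s hs z hz t ht0 ht
    obtain ⟨g, hg⟩ := hh_ne hρ hs
    have hz0 : Ut ι U (gp n g) ∈ ZZ ι U n := mem_ZZ.2 ⟨g, rfl⟩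
    have h5 : ((n : ℝ) + 1) * ‖Ut ι U s - Ut ι U (gp n g)‖ ≤ 1 / 16 := by
      rw [← map_sub]
      have h6 := mul_le_mul_of_nonneg_left ((Ut ι U).le_opNorm (s - gp n g)) hn.le
      have h7 := mul_le_mul_of_nonneg_left hg.le (norm_nonneg (Ut ι U))
      nlinarith
    rw [le_div_iff₀ (by positivity)] at hz ht
    have h6 : ((n : ℝ) + 1) * (‖z‖ + t * ‖vv ι U y‖) ≤ 1 / 16 := by
      rcases le_total ‖z‖ t with h | h
      · nlinarith
      · have := mul_le_mul_of_nonneg_right h hv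
        nlinarith
    have h7 : ‖Ut ι U s + z - Ut ι U (gp n g)‖ ≤ ‖Ut ι U s - Ut ι U (gp n g)‖ + ‖z‖ := by
      have := norm_add_le (Ut ι U s - Ut ι U (gp n g)) z
      rwa [sub_add_eq_add_sub] at this
    have h8 : ‖Ut ι U s + z + t • vv ι U y - Ut ι U (gp n g)‖
        ≤ ‖Ut ι U s + z - Ut ι U (gp n g)‖ + t * ‖vv ι U y‖ := by
      have := norm_add_le (Ut ι U s + z - Ut ι U (gp n g)) (t • vv ι U y)
      rwa [sub_add_eq_add_sub, norm_smul, Real.norm_eq_abs, abs_of_pos ht0] at this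
    have h9 : 0 ≤ ((n : ℝ) + 1) * (t * ‖vv ι U y‖) := by positivity
    rw [hξ2, hξ2, ff_near ι U _ hz0 (by nlinarith), ff_near ι U _ hz0 (by nlinarith), ← map_sub,
      sub_sub_sub_cancel_right, add_sub_cancel_left, map_smul, la_vv hι, smul_eq_mul]
    simp [Pi.single_apply]
  -- (3) normal directions
  have f3 : ∀ (a : J → ℝ), (∀ y, ∑ x, a x * U x y = 0) → ∀ x,
      Tendsto (fun n => Ξ a n (P (T (hh ρ n) (ee (ι x))))) atTop (𝓝 0) := by
    intro a ha x
    by_contra hcon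
    rw [Metric.tendsto_nhds] at hcon
    push Not at hcon
    obtain ⟨ε, hε, hfr⟩ := hcon
    have haB : ∀ x, |a x| ≤ ‖a‖ := fun x => norm_le_pi_norm a x
    refine mackey (μ := volume) hF (fun h => P (T h (ee (ι x)))) hC ?_ (hSn x)
      (K := Metric.closedBall 0 1) Metric.isClosed_closedBall.measurableSet
      (isCompact_closedBall 0 1).measure_lt_top.ne (V := Set.range (Ut ι U))
      (Set.range_nonempty _) (L := 6 * ‖a‖) (by positivity) hε ?_
    · intro h g h1 h2 c'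
      simp only [T_lin he hF.lip hT h1 h2, map_add, map_smul]
    · intro η hη
      obtain ⟨n, hn1, hn2⟩ := (hfr.and_eventually
        ((tendsto_inv_succ 1).eventually (ge_mem_nhds hη))).exists
      rw [Real.dist_eq, sub_zero] at hn1
      have hL := hΞL a _ (norm_nonneg a) haB n
      have g1 : ∀ s, s ∉ Metric.closedBall (0 : J → ℝ) 1 → hh ρ n s = 0 :=
        fun s hs' => hh_supp hρ hρ1 n s (by simpa using hs')
      have g2 : ∀ y ∈ Set.range (Ut ι U), Ξ a n (δ y) = 0 := fun y hy => by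
        rw [hΞ]; exact ff_perp hι U ha n hy
      have g3 : ∀ y, η ≤ Metric.infDist y (Set.range (Ut ι U)) → Ξ a n (δ y) = 0 := fun y hy => by
        rw [hΞ]; exact ff_far ι U a (hn2.trans hy)
      rcases le_abs.1 hn1 with h | h
      · exact ⟨hh ρ n, Ξ a n, hint n, hh_le hρ hρ1 n, g1, hL, g2, g3, h⟩
      · exact ⟨hh ρ n, -Ξ a n, hint n, hh_le hρ hρ1 n, g1, hL.neg,
          fun y hy => by simp [g2 y hy], fun y hy => by simp [g3 y hy], h⟩
  have f4 : Tendsto (fun n => ∑ x, Ξ (fun y => A x y - c * U x y) n (P (T (hh ρ n) (ee (ι x))))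
      + c * ∑ y, (U y y : ℝ) * I) atTop (𝓝 (∑ x : J, (0:ℝ) + c * ∑ y, (U y y : ℝ) * I)) :=
    (tendsto_finsetSum _ fun x _ => f3 _ (hperp x) x).add_const _
  have f5 := le_of_tendsto' f4 (b := Fintype.card J * (6 * α * C * I)) (fun n => by
    have h1 : ∑ x, Ξ (fun y => A x y - c * U x y) n (P (T (hh ρ n) (ee (ι x))))
        + c * ∑ y, (U y y : ℝ) * I = ∑ x, Ξ (A x) n (P (T (hh ρ n) (ee (ι x)))) := by
      rw [← Finset.sum_congr rfl fun y _ => f2 n y, Finset.sum_comm, Finset.mul_sum,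
        ← Finset.sum_add_distrib]
      refine Finset.sum_congr rfl fun x _ => ?_
      simp only [Ξ, _root_.sum_apply, smul_apply, smul_eq_mul, Finset.mul_sum,
        ← Finset.sum_add_distrib]
      exact Finset.sum_congr rfl fun y _ => by ring
    rw [h1]
    refine (Finset.sum_le_card_nsmul _ _ _ fun x _ => f1 x n).trans ?_
    rw [nsmul_eq_mul, Finset.card_univ])
  rw [Finset.sum_const_zero, zero_add, ← Finset.sum_mul] at f5
  refine le_of_mul_le_mul_right ?_ hI0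
  linarith

theorem not_complemented {X : Type*} [NormedAddCommGroup X] [NormedSpace ℝ X] [CompleteSpace X]
    {δ : L1 → X} (hF : Free δ) (P : ((X →L[ℝ] ℝ) →L[ℝ] ℝ) →L[ℝ] X)
    (hP : ∀ x : X, P (ContinuousLinearMap.apply ℝ ℝ x) = x) : False := by
  classical
  obtain ⟨C, hC, hPC⟩ := ContinuousLinearMap.bound (𝕜 := ℝ) (𝕜₂ := ℝ) (σ₁₂ := RingHom.id ℝ)
    (E := (X →L[ℝ] ℝ) →L[ℝ] ℝ) (F := X) P
  obtain ⟨k, hk⟩ := pow_unbounded_of_one_lt (6 * C) (by norm_num : (1:ℝ) < 4 / 3)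
  obtain ⟨ι, hι⟩ := exists_injective_nat (Fin k → Fin 3)
  let u : Fin 3 → Fin 3 → ℤ := fun s t => if s = t then 2 else -1
  let al : Fin 3 → Fin 3 → ℝ := fun s t => if s = t then 1 / 2 else -1 / 2
  have h1 : ∀ s r, ∑ t, al s t * (u t r : ℝ) = u s r := by
    intro s r
    fin_cases s <;> fin_cases r <;> simp [Fin.sum_univ_three, al, u] <;> norm_num
  have h2 : ∀ s r, ∑ t, (u s t : ℝ) * (u t r : ℝ) = 3 * u s r := by
    intro s r
    fin_cases s <;> fin_cases r <;> simp [Fin.sum_univ_three, u] <;> norm_num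
  have h3 : ∀ s t, |al s t| = 1 / 2 := by
    intro s t
    simp only [al]
    split_ifs
    · exact abs_of_pos (by norm_num)
    · rw [abs_of_neg (by norm_num)]; norm_num
  have := key hF P hP hC.le hPC hι (fun x y => ∏ i, u (x i) (y i)) (fun x y => ∏ i, al (x i) (y i))
    ((1 / 3) ^ k) ((1 / 2) ^ k) (by positivity) ?_ ?_
  · simp only [u, if_true, Finset.prod_const, Finset.card_univ, Fintype.card_fin, Finset.sum_const,
      Fintype.card_fun, nsmul_eq_mul] at this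
    push_cast at this
    have e1 : ((1:ℝ) / 3) ^ k * (3 ^ k * 2 ^ k) = (4 / 3) ^ k * (3 ^ k * (1 / 2) ^ k) := by
      simp only [← mul_pow]; norm_num
    rw [e1] at this
    have h4 : (0:ℝ) < 3 ^ k * (1 / 2) ^ k := by positivity
    nlinarith
  · intro x y
    rw [Finset.abs_prod]
    simp [h3]
  · intro x y'
    push_cast
    simp only [sub_mul, Finset.sum_sub_distrib, mul_assoc, ← Finset.mul_sum,
      ← Finset.prod_mul_distrib]
    rw [← Fintype.prod_sum (fun i t => al (x i) t * (u t (y' i) : ℝ)),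
      ← Fintype.prod_sum (fun i t => (u (x i) t : ℝ) * (u t (y' i) : ℝ))]
    simp only [h1, h2, Finset.prod_mul_distrib, Finset.prod_const, Finset.card_univ,
      Fintype.card_fin]
    rw [← mul_assoc, ← mul_pow]
    norm_num

theorem final :
    ¬ (∃ (X : Type) (_ : NormedAddCommGroup X) (_ : NormedSpace ℝ X) (_ : CompleteSpace X)
      (δ : lp (fun _ : ℕ => ℝ) 1 → X),
      δ 0 = 0 ∧ LipschitzWith 1 δ ∧
      Dense ((Submodule.span ℝ (Set.range δ) : Submodule ℝ X) : Set X) ∧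
      (∀ (Y : Type) (_ : NormedAddCommGroup Y) (_ : NormedSpace ℝ Y) (_ : CompleteSpace Y)
        (f : lp (fun _ : ℕ => ℝ) 1 → Y) (K : NNReal),
        LipschitzWith K f → f 0 = 0 →
        ∃ T : X →L[ℝ] Y, ‖T‖ ≤ (K : ℝ) ∧ ∀ m, T (δ m) = f m) ∧
      ∃ P : ((X →L[ℝ] ℝ) →L[ℝ] ℝ) →L[ℝ] X,
        ∀ x : X, P (ContinuousLinearMap.apply ℝ ℝ x) = x) := by
  rintro ⟨X, _, _, _, δ, h0, h1, h2, h3, P, hP⟩
  refine not_complemented ⟨h0, h1, h2, fun f L hL hf hf0 => ?_⟩ P hP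
  exact h3 ℝ _ _ inferInstance f ⟨L, hL⟩ (LipschitzWith.of_dist_le_mul fun x y => hf x y) hf0

end H441Z.FB
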