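import Pool.Agent.H441Z.FB.Mackey

set_option autoImplicit false
set_option maxHeartbeats 400000
set_option linter.unusedSectionVars false

open Finset Filter Topology MeasureTheory

namespace H441Z.FB

open H441Z.FL

theorem disj_sum {κ : Type*} {s : Finset κ} {F : κ → ℝ}
    (hd : ∀ i ∈ s, ∀ j ∈ s, F i ≠ 0 → F j ≠ 0 → i = j) {i : κ} (hi : i ∈ s) (h : F i ≠ 0) :
    ∑ j ∈ s, F j = F i := by
  refine Finset.sum_eq_single i (fun j hj hne => ?_) (fun h' => absurd hi h')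
  by_contra h'
  exact hne (hd j hj i hi h' h)

theorem disj_lip {Y κ : Type*} [PseudoMetricSpace Y] {s : Finset κ} {F : κ → Y → ℝ} {L : ℝ}
    (hL0 : 0 ≤ L) (hL : ∀ i ∈ s, Lip L (F i))
    (hd : ∀ x, ∀ i ∈ s, ∀ j ∈ s, F i x ≠ 0 → F j x ≠ 0 → i = j) :
    Lip (2 * L) (fun x => ∑ i ∈ s, F i x) := by
  intro x y
  have h0 : 0 ≤ L * dist x y := by positivity
  show |∑ i ∈ s, F i x - ∑ i ∈ s, F i y| ≤ _
  by_cases hx : ∃ i ∈ s, F i x ≠ 0 <;> by_cases hy : ∃ i ∈ s, F i y ≠ 0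
  · obtain ⟨i, hi, hix⟩ := hx
    obtain ⟨j, hj, hjy⟩ := hy
    rw [disj_sum (hd x) hi hix, disj_sum (hd y) hj hjy]
    by_cases hij : i = j
    · subst hij; linarith [hL i hi x y]
    · have h1 : F i y = 0 := by
        by_contra h; exact hij (hd y i hi j hj h hjy)
      have h2 : F j x = 0 := by
        by_contra h; exact hij (hd x i hi j hj hix h)
      have h3 := hL i hi x y
      have h4 := hL j hj x y
      rw [h1, sub_zero] at h3
      rw [h2, zero_sub, abs_neg] at h4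
      linarith [abs_sub (F i x) (F j y)]
  · obtain ⟨i, hi, hix⟩ := hx
    push Not at hy
    rw [disj_sum (hd x) hi hix, Finset.sum_eq_zero hy, ← hy i hi]
    linarith [hL i hi x y]
  · obtain ⟨i, hi, hiy⟩ := hy
    push Not at hx
    rw [disj_sum (hd y) hi hiy, Finset.sum_eq_zero hx, ← hx i hi]
    linarith [hL i hi x y]
  · push Not at hx hy
    rw [Finset.sum_eq_zero hx, Finset.sum_eq_zero hy]
    simp only [sub_self, abs_zero]
    linarith

variable {J : Type} [Fintype J] [DecidableEq J]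

noncomputable def vv (ι : J → ℕ) (U : J → J → ℤ) (y : J) : L1 := ∑ x, (U x y : ℝ) • ee (ι x)

noncomputable def Ut (ι : J → ℕ) (U : J → J → ℤ) : (J → ℝ) →L[ℝ] L1 :=
  ∑ y, (ContinuousLinearMap.proj y : (J → ℝ) →L[ℝ] ℝ).smulRight (vv ι U y)

theorem Ut_apply (ι : J → ℕ) (U : J → J → ℤ) (s : J → ℝ) :
    Ut ι U s = ∑ y, s y • vv ι U y := by
  simp [Ut]

theorem Ut_single (ι : J → ℕ) (U : J → J → ℤ) (y : J) : Ut ι U (Pi.single y 1) = vv ι U y := by
  rw [Ut_apply, Finset.sum_eq_single y] <;> simp +contextual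

noncomputable def la (ι : J → ℕ) (a : J → ℝ) : L1 →ₗ[ℝ] ℝ where
  toFun y := ∑ x, a x * y (ι x)
  map_add' y z := by simp [mul_add, Finset.sum_add_distrib]
  map_smul' c y := by
    simp only [lp.coeFn_smul, Pi.smul_apply, smul_eq_mul, RingHom.id_apply, Finset.mul_sum]
    exact Finset.sum_congr rfl fun x _ => by ring

theorem la_apply (ι : J → ℕ) (a : J → ℝ) (y : L1) : la ι a y = ∑ x, a x * y (ι x) := rfl

theorem la_bound {ι : J → ℕ} (hι : Function.Injective ι) {a : J → ℝ} {A : ℝ} (hA0 : 0 ≤ A)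
    (hA : ∀ x, |a x| ≤ A) (y : L1) : |la ι a y| ≤ A * ‖y‖ := by
  have h1 := lp.sum_rpow_le_norm_rpow (p := 1) (by norm_num) y (Finset.univ.image ι)
  rw [Finset.sum_image (fun x _ x' _ h => hι h)] at h1
  simp only [ENNReal.toReal_one, Real.rpow_one, Real.norm_eq_abs] at h1
  rw [la_apply]
  refine (Finset.abs_sum_le_sum_abs _ _).trans (le_trans ?_ (mul_le_mul_of_nonneg_left h1 hA0))
  rw [Finset.mul_sum]
  refine Finset.sum_le_sum fun x _ => ?_
  rw [abs_mul]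
  exact mul_le_mul_of_nonneg_right (hA x) (abs_nonneg _)

theorem la_vv {ι : J → ℕ} (hι : Function.Injective ι) (U : J → J → ℤ) (a : J → ℝ) (y : J) :
    la ι a (vv ι U y) = ∑ x, a x * U x y := by
  unfold vv
  rw [map_sum]
  refine Finset.sum_congr rfl fun x _ => ?_
  rw [map_smul, la_apply, Finset.sum_eq_single x]
  · simp [ee_apply, mul_comm]
  · intro b _ hb; simp [ee_apply, hι.ne hb]
  · simp

theorem Ut_sep (ι : J → ℕ) (U : J → J → ℤ) (g : J → ℤ) (h : Ut ι U (fun j => (g j : ℝ)) ≠ 0) :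
    1 ≤ ‖Ut ι U (fun j => (g j : ℝ))‖ := by
  have h1 : ∃ i, Ut ι U (fun j => (g j : ℝ)) i ≠ 0 := by
    by_contra h'
    push Not at h'
    exact h (lp.ext (funext h'))
  obtain ⟨i, hi⟩ := h1
  have h2 : Ut ι U (fun j => (g j : ℝ)) i
      = ((∑ y, g y * ∑ x, U x y * (if i = ι x then 1 else 0) : ℤ) : ℝ) := by
    let ev : L1 →ₗ[ℝ] ℝ :=
      { toFun := fun y => y i, map_add' := fun y z => by simp, map_smul' := fun c y => by simp }
    have hev : ∀ j, ev (ee j) = if i = j then 1 else 0 := fun j => ee_apply j i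
    show ev _ = _
    rw [Ut_apply]
    simp only [vv, map_sum, map_smul, hev, smul_eq_mul]
    push_cast
    rfl
  have h3 := lp.norm_apply_le_norm (p := 1) (by norm_num) (Ut ι U (fun j => (g j : ℝ))) i
  rw [h2] at hi h3
  refine le_trans ?_ h3
  rw [Real.norm_eq_abs, ← Int.cast_abs]
  exact_mod_cast Int.one_le_abs (Int.cast_ne_zero.1 hi)

noncomputable def gp (n : ℕ) (g : J → Fin (n + 1)) : J → ℝ := fun j => ((g j : ℕ) : ℝ) / (n + 1)

open Classical in
noncomputable def ZZ (ι : J → ℕ) (U : J → J → ℤ) (n : ℕ) : Finset L1 :=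
  Finset.univ.image fun g : J → Fin (n + 1) => Ut ι U (gp n g)

theorem mem_ZZ {ι : J → ℕ} {U : J → J → ℤ} {n : ℕ} {z : L1} :
    z ∈ ZZ ι U n ↔ ∃ g : J → Fin (n + 1), Ut ι U (gp n g) = z := by
  simp [ZZ]

theorem ZZ_sep {ι : J → ℕ} {U : J → J → ℤ} {n : ℕ} {z z' : L1} (hz : z ∈ ZZ ι U n)
    (hz' : z' ∈ ZZ ι U n) (hne : z ≠ z') : 1 ≤ ((n : ℝ) + 1) * ‖z - z'‖ := by
  obtain ⟨g, rfl⟩ := mem_ZZ.1 hz
  obtain ⟨g', rfl⟩ := mem_ZZ.1 hz'
  have hn : (0:ℝ) < (n : ℝ) + 1 := by positivity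
  have e1 : Ut ι U (fun j => ((((g j : ℕ) : ℤ) - ((g' j : ℕ) : ℤ) : ℤ) : ℝ))
      = ((n : ℝ) + 1) • (Ut ι U (gp n g) - Ut ι U (gp n g')) := by
    rw [← map_sub, ← map_smul]
    congr 1
    ext j
    simp only [gp, Pi.smul_apply, Pi.sub_apply, smul_eq_mul]
    push_cast
    field_simp
  have h1 := Ut_sep ι U (fun j => ((g j : ℕ) : ℤ) - ((g' j : ℕ) : ℤ)) (by
    rw [e1]
    exact smul_ne_zero hn.ne' (sub_ne_zero.2 hne))
  rwa [e1, norm_smul, Real.norm_eq_abs, abs_of_pos hn] at h1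

noncomputable def cut (t : ℝ) : ℝ := max 0 (min 1 (2 - 8 * t))

theorem cut_one {t : ℝ} (h : t ≤ 1 / 8) : cut t = 1 := by
  unfold cut
  rw [min_eq_left (by linarith), max_eq_right zero_le_one]

theorem cut_zero {t : ℝ} (h : 1 / 4 ≤ t) : cut t = 0 :=
  max_eq_left (min_le_of_right_le (by linarith))

theorem abs_cut (t : ℝ) : |cut t| ≤ 1 := by
  unfold cut
  rw [abs_of_nonneg (le_max_left _ _)]
  exact max_le zero_le_one (min_le_left _ _)

/-- oscillating test function -/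
noncomputable def ff (ι : J → ℕ) (U : J → J → ℤ) (a : J → ℝ) (n : ℕ) (y : L1) : ℝ :=
  ∑ z ∈ ZZ ι U n, la ι a (y - z) * cut (((n : ℝ) + 1) * ‖y - z‖)

theorem ff_lip {ι : J → ℕ} (hι : Function.Injective ι) (U : J → J → ℤ) {a : J → ℝ} {A : ℝ}
    (hA0 : 0 ≤ A) (hA : ∀ x, |a x| ≤ A) (n : ℕ) : Lip (6 * A) (ff ι U a n) := by
  have hn : (0:ℝ) < (n : ℝ) + 1 := by positivity
  have := disj_lip (s := ZZ ι U n) (L := 3 * A)
    (F := fun z y => la ι a (y - z) * cut (((n : ℝ) + 1) * ‖y - z‖)) (by positivity) ?_ ?_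
  · exact this.mono (le_of_eq (by ring))
  · intro z _
    have h1 : Lip A (fun y => la ι a (y - z)) := by
      intro x y
      show |la ι a (x - z) - la ι a (y - z)| ≤ _
      rw [← map_sub, sub_sub_sub_cancel_right, dist_eq_norm]
      exact la_bound hι hA0 hA _
    have h2 : Lip A (fun y => clamp (A / (4 * ((n : ℝ) + 1))) (la ι a (y - z))) :=
      Lip.clamp ((Lip.const _).mono hA0) h1
    have h3 : Lip 1 (fun y : L1 => ‖y - z‖) := by
      intro x y
      have := abs_norm_sub_norm_le (x - z) (y - z)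
      rw [sub_sub_sub_cancel_right] at this
      rw [one_mul, dist_eq_norm]
      exact this
    have h4 : Lip (8 * ((n : ℝ) + 1)) (fun y : L1 => cut (((n : ℝ) + 1) * ‖y - z‖)) := by
      have h5 := (Lip.const (2:ℝ)).sub ((h3.cmul ((n : ℝ) + 1)).cmul 8)
      rw [abs_of_pos hn, abs_of_pos (by norm_num : (0:ℝ) < 8), mul_one, zero_add] at h5
      exact ((Lip.const (0:ℝ)).mono (by positivity)).max'
        (((Lip.const (1:ℝ)).mono (by positivity)).min' h5)
    have h5 := h2.mul h4 (fun y => abs_clamp_le (by positivity) _) (fun y => abs_cut _)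
    have e1 : (fun y => la ι a (y - z) * cut (((n : ℝ) + 1) * ‖y - z‖))
        = fun y => clamp (A / (4 * ((n : ℝ) + 1))) (la ι a (y - z))
          * cut (((n : ℝ) + 1) * ‖y - z‖) := by
      ext y
      rcases le_total (1 / 4) (((n : ℝ) + 1) * ‖y - z‖) with h | h
      · rw [cut_zero h, mul_zero, mul_zero]
      · rw [clamp_eq]
        refine (la_bound hι hA0 hA _).trans ?_
        rw [le_div_iff₀ (by positivity)]
        nlinarith
    rw [e1]
    refine h5.mono (le_of_eq ?_)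
    field_simp
    ring
  · intro y z hz z' hz' h1 h2
    by_contra hne
    have h3 := ZZ_sep hz hz' hne
    have h4 : ((n : ℝ) + 1) * ‖y - z‖ < 1 / 4 := by
      by_contra h; exact h1 (by simp only [cut_zero (not_lt.1 h), mul_zero])
    have h5 : ((n : ℝ) + 1) * ‖y - z'‖ < 1 / 4 := by
      by_contra h; exact h2 (by simp only [cut_zero (not_lt.1 h), mul_zero])
    have h6 := norm_sub_le (y - z') (y - z)
    rw [sub_sub_sub_cancel_left] at h6
    nlinarith

theorem ff_near (ι : J → ℕ) (U : J → J → ℤ) (a : J → ℝ) {n : ℕ} {y z : L1} (hz : z ∈ ZZ ι U n)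
    (h : ((n : ℝ) + 1) * ‖y - z‖ ≤ 1 / 8) : ff ι U a n y = la ι a (y - z) := by
  have hn : (0:ℝ) < (n : ℝ) + 1 := by positivity
  unfold ff
  rw [Finset.sum_eq_single z, cut_one h, mul_one]
  · intro z' hz' hne
    have h3 := ZZ_sep hz' hz hne
    have h6 := norm_sub_le (y - z) (y - z')
    rw [sub_sub_sub_cancel_left] at h6
    rw [cut_zero (by nlinarith), mul_zero]
  · exact fun h' => absurd hz h'

theorem ff_zero (ι : J → ℕ) (U : J → J → ℤ) (a : J → ℝ) (n : ℕ) : ff ι U a n 0 = 0 := by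
  have hz : (0 : L1) ∈ ZZ ι U n := mem_ZZ.2 ⟨fun _ => 0, by
    have : gp n (fun _ : J => (0 : Fin (n + 1))) = 0 := by ext j; simp [gp]
    rw [this, map_zero]⟩
  rw [ff_near ι U a hz (by simp)]
  simp

theorem ff_far (ι : J → ℕ) (U : J → J → ℤ) (a : J → ℝ) {n : ℕ} {y : L1}
    (h : 1 / ((n : ℝ) + 1) ≤ Metric.infDist y (Set.range (Ut ι U))) : ff ι U a n y = 0 := by
  have hn : (0:ℝ) < (n : ℝ) + 1 := by positivity
  refine Finset.sum_eq_zero fun z hz => ?_
  obtain ⟨g, rfl⟩ := mem_ZZ.1 hz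
  have h1 := h.trans (Metric.infDist_le_dist_of_mem (Set.mem_range_self (gp n g)))
  rw [dist_eq_norm, div_le_iff₀ hn] at h1
  rw [cut_zero (by linarith), mul_zero]

theorem ff_perp {ι : J → ℕ} (hι : Function.Injective ι) (U : J → J → ℤ) {a : J → ℝ}
    (ha : ∀ y, ∑ x, a x * U x y = 0) (n : ℕ) {y : L1} (hy : y ∈ Set.range (Ut ι U)) :
    ff ι U a n y = 0 := by
  obtain ⟨s, rfl⟩ := hy
  refine Finset.sum_eq_zero fun z hz => ?_
  obtain ⟨g, rfl⟩ := mem_ZZ.1 hz
  rw [← map_sub, Ut_apply, map_sum]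
  simp [la_vv hι, ha]

theorem ff_lin (ι : J → ℕ) (U : J → J → ℤ) (a : J → ℝ) (n : ℕ) (y : L1) :
    ∑ x, a x * ff ι U (Pi.single x 1) n y = ff ι U a n y := by
  unfold ff
  simp only [Finset.mul_sum]
  rw [Finset.sum_comm]
  refine Finset.sum_congr rfl fun z _ => ?_
  simp only [← mul_assoc, ← Finset.sum_mul]
  congr 1
  refine Finset.sum_congr rfl fun x _ => ?_
  simp [la_apply, Pi.single_apply]

noncomputable def tent (u : J → ℝ) : ℝ := max 0 (1 - ‖u‖)

theorem tent_lip : Lip 1 (tent : (J → ℝ) → ℝ) := by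
  have h3 : Lip 1 (fun y : J → ℝ => ‖y‖) := by
    intro x y
    have := abs_norm_sub_norm_le x y
    rwa [← dist_eq_norm, ← one_mul (dist x y)] at this
  exact ((Lip.const (0:ℝ)).mono zero_le_one).max' (((Lip.const (1:ℝ)).sub h3).mono (by simp))

theorem tent_ne {u : J → ℝ} (h : tent u ≠ 0) : ‖u‖ < 1 := by
  by_contra h'
  exact h (max_eq_left (by linarith [not_lt.1 h']))

theorem tent_int_pos : 0 < ∫ u : J → ℝ, tent u := by
  refine tent_lip.continuous.integral_pos_of_hasCompactSupport_nonneg_nonzero (x := 0) ?_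
    (fun u => le_max_left _ _) (by simp [tent])
  refine HasCompactSupport.intro (isCompact_closedBall 0 1) fun u hu => ?_
  by_contra h
  exact hu (by simpa using (tent_ne h).le)

/-- oscillating density -/
noncomputable def hh (ρ : ℝ) (n : ℕ) (s : J → ℝ) : ℝ :=
  ∑ g : J → Fin (n + 1), tent ((((n : ℝ) + 1) / ρ) • (s - gp n g))

theorem hh_term {ρ : ℝ} (hρ : 0 < ρ) {n : ℕ} {s : J → ℝ} {g : J → Fin (n + 1)}
    (h : tent ((((n : ℝ) + 1) / ρ) • (s - gp n g)) ≠ 0) : ((n : ℝ) + 1) * ‖s - gp n g‖ < ρ := by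
  have := tent_ne h
  rwa [norm_smul, Real.norm_eq_abs, abs_of_pos (by positivity), div_mul_eq_mul_div,
    div_lt_one hρ] at this

theorem hh_ne {ρ : ℝ} (hρ : 0 < ρ) {n : ℕ} {s : J → ℝ} (h : hh ρ n s ≠ 0) :
    ∃ g : J → Fin (n + 1), ((n : ℝ) + 1) * ‖s - gp n g‖ < ρ := by
  obtain ⟨g, -, hg⟩ := Finset.exists_ne_zero_of_sum_ne_zero h
  exact ⟨g, hh_term hρ hg⟩

theorem hh_nonneg (ρ : ℝ) (n : ℕ) (s : J → ℝ) : 0 ≤ hh ρ n s :=
  Finset.sum_nonneg fun _ _ => le_max_left _ _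

theorem hh_le {ρ : ℝ} (hρ : 0 < ρ) (hρ1 : ρ ≤ 1 / 2) (n : ℕ) (s : J → ℝ) : |hh ρ n s| ≤ 1 := by
  have hn : (0:ℝ) < (n : ℝ) + 1 := by positivity
  rw [abs_of_nonneg (hh_nonneg ρ n s)]
  by_cases h : hh ρ n s = 0
  · rw [h]; exact zero_le_one
  obtain ⟨g, -, hg⟩ := Finset.exists_ne_zero_of_sum_ne_zero h
  unfold hh
  rw [disj_sum ?_ (Finset.mem_univ g) hg]
  · exact max_le zero_le_one (by linarith [norm_nonneg ((((n : ℝ) + 1) / ρ) • (s - gp n g))])
  · intro g1 _ g2 _ h1 h2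
    have h3 := hh_term hρ h1
    have h4 := hh_term hρ h2
    have h5 := norm_sub_le (s - gp n g2) (s - gp n g1)
    rw [sub_sub_sub_cancel_left] at h5
    ext j
    have h6 := norm_le_pi_norm (gp n g1 - gp n g2) j
    have h7 : ((n : ℝ) + 1) * ‖(gp n g1 - gp n g2) j‖ < 1 := by nlinarith
    have e1 : ((n : ℝ) + 1) * ‖(gp n g1 - gp n g2) j‖ = |((g1 j : ℕ) : ℝ) - ((g2 j : ℕ) : ℝ)| := by
      simp only [gp, Pi.sub_apply, Real.norm_eq_abs]
      rw [← sub_div, abs_div, abs_of_pos hn]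
      field_simp
    rw [e1, abs_lt] at h7
    have h8 : ((g1 j : ℕ) : ℝ) < (g2 j : ℕ) + 1 := by linarith [h7.2]
    have h9 : ((g2 j : ℕ) : ℝ) < (g1 j : ℕ) + 1 := by linarith [h7.1]
    have h10 : (g1 j : ℕ) < (g2 j : ℕ) + 1 := by exact_mod_cast h8
    have h11 : (g2 j : ℕ) < (g1 j : ℕ) + 1 := by exact_mod_cast h9
    omega

theorem hh_supp {ρ : ℝ} (hρ : 0 < ρ) (hρ1 : ρ ≤ 1 / 2) (n : ℕ) (s : J → ℝ) (hs : 1 < ‖s‖) :
    hh ρ n s = 0 := by
  have hn : (0:ℝ) < (n : ℝ) + 1 := by positivity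
  by_contra h
  obtain ⟨g, hg⟩ := hh_ne hρ h
  have h1 : ‖gp n g‖ ≤ n / ((n : ℝ) + 1) := by
    refine (pi_norm_le_iff_of_nonneg (by positivity)).2 fun j => ?_
    simp only [gp, Real.norm_eq_abs]
    rw [abs_of_nonneg (by positivity)]
    refine div_le_div_of_nonneg_right ?_ hn.le
    exact_mod_cast Nat.lt_succ_iff.1 (g j).2
  rw [le_div_iff₀ hn] at h1
  have h2 := norm_add_le (s - gp n g) (gp n g)
  rw [sub_add_cancel] at h2
  nlinarith

theorem hh_lip (ρ : ℝ) (n : ℕ) : ∃ K : NNReal, LipschitzWith K (hh ρ n : (J → ℝ) → ℝ) := by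
  have h1 : ∀ g : J → Fin (n + 1), Lip |((n : ℝ) + 1) / ρ|
      (fun s : J → ℝ => tent ((((n : ℝ) + 1) / ρ) • (s - gp n g))) := by
    intro g x y
    refine (tent_lip _ _).trans (le_of_eq ?_)
    rw [one_mul, dist_smul₀, dist_sub_right, Real.norm_eq_abs]
  have h2 := Lip.sum Finset.univ (fun g _ => h1 g)
  refine ⟨Real.toNNReal ((Finset.univ : Finset (J → Fin (n + 1))).card * |((n : ℝ) + 1) / ρ|),
    LipschitzWith.of_dist_le_mul fun x y => ?_⟩
  rw [Real.dist_eq]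
  exact (h2 x y).trans (mul_le_mul_of_nonneg_right (Real.le_coe_toNNReal _) dist_nonneg)

theorem hh_int {ρ : ℝ} (hρ : 0 < ρ) (n : ℕ) :
    ∫ s : J → ℝ, hh ρ n s = ρ ^ Fintype.card J * ∫ u : J → ℝ, tent u := by
  have hn : (0:ℝ) < (n : ℝ) + 1 := by positivity
  have hc : Continuous (tent : (J → ℝ) → ℝ) := tent_lip.continuous
  unfold hh
  rw [integral_finsetSum]
  · have h1 : ∀ g : J → Fin (n + 1), ∫ s : J → ℝ, tent ((((n : ℝ) + 1) / ρ) • (s - gp n g))
        = (ρ / ((n : ℝ) + 1)) ^ Fintype.card J * ∫ u : J → ℝ, tent u := by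
      intro g
      rw [integral_sub_right_eq_self (fun s : J → ℝ => tent ((((n : ℝ) + 1) / ρ) • s)) (gp n g),
        Measure.integral_comp_smul, Module.finrank_fintype_fun_eq_card,
        abs_of_pos (by positivity), smul_eq_mul, ← inv_pow, inv_div]
    rw [Finset.sum_congr rfl fun g _ => h1 g, Finset.sum_const, Finset.card_univ, Fintype.card_fun,
      Fintype.card_fin, nsmul_eq_mul, div_pow]
    push_cast
    field_simp
  · intro g _
    refine Continuous.integrable_of_hasCompactSupport (by fun_prop) ?_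
    refine HasCompactSupport.intro (isCompact_closedBall (gp n g) ρ) fun u hu => ?_
    by_contra h
    have h2 := hh_term hρ h
    have h3 : (0:ℝ) ≤ n := Nat.cast_nonneg n
    exact hu (by rw [mem_closedBall_iff_norm]; nlinarith [norm_nonneg (u - gp n g)])

end H441Z.FB
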